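import Mathlib

/-! The real two-sided Wiener algebra as an algebra of operators on `ℓ¹(ℤ)` (real coefficients;
real version of the starting file `V1193/WienerA`). -/

open Set Filter Topology

namespace Pool.Agent.N463.HW

/-- `ℓ¹(ℤ)` (real sequences) -/
abbrev E : Type := lp (fun _ : ℤ => ℝ) 1

lemma memE_iff (u : ℤ → ℝ) : Memℓp u 1 ↔ Summable (fun n => ‖u n‖) := by
  rw [memℓp_gen_iff (by norm_num)]
  simp

lemma E_summable (u : E) : Summable (fun n => ‖u n‖) := (memE_iff _).1 u.2

lemma E_norm (u : E) : ‖u‖ = ∑' n, ‖u n‖ := by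
  rw [lp.norm_eq_tsum_rpow (by norm_num)]
  simp

/-- elements of `E` from summable families -/
noncomputable def mkE (u : ℤ → ℝ) (h : Summable (fun n => ‖u n‖)) : E := ⟨u, (memE_iff u).2 h⟩

/-- the shift by `k` -/
noncomputable def Sh (k : ℤ) : E →L[ℝ] E :=
  LinearMap.mkContinuous
    { toFun := fun u => mkE (fun n => u (n - k)) (by
        exact (Equiv.subRight k).summable_iff.2 (E_summable u))
      map_add' := fun u v => by
        ext n; rfl
      map_smul' := fun c u => by
        ext n; rfl } 1 (fun u => by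
      rw [one_mul, E_norm, E_norm]
      apply le_of_eq
      exact (Equiv.subRight k).tsum_eq (fun n => ‖u n‖))

lemma Sh_apply (k : ℤ) (u : E) (n : ℤ) : (Sh k u) n = u (n - k) := rfl

lemma Sh_norm (k : ℤ) : ‖Sh k‖ ≤ 1 := LinearMap.mkContinuous_norm_le _ zero_le_one _

lemma Sh_mul (k l : ℤ) : Sh k * Sh l = Sh (k + l) := by
  ext u n
  show (Sh k (Sh l u)) n = _
  rw [Sh_apply, Sh_apply, Sh_apply, sub_sub]

lemma Sh_zero : Sh 0 = 1 := by
  ext u n
  rw [Sh_apply, sub_zero]; rfl

/-- the operators generated by the shifts -/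
noncomputable def WA : Subalgebra ℝ (E →L[ℝ] E) :=
  (Algebra.adjoin ℝ (range Sh)).topologicalClosure

lemma Sh_mem (k : ℤ) : Sh k ∈ WA :=
  Subalgebra.le_topologicalClosure _ (Algebra.subset_adjoin ⟨k, rfl⟩)

lemma WA_le {Z : Subalgebra ℝ (E →L[ℝ] E)} (hZ : IsClosed (Z : Set (E →L[ℝ] E)))
    (h : ∀ k, Sh k ∈ Z) : WA ≤ Z := by
  refine Subalgebra.topologicalClosure_minimal (Algebra.adjoin_le ?_) hZ
  rintro _ ⟨k, rfl⟩
  exact h k

lemma WA_comm_Sh (x : E →L[ℝ] E) (hx : x ∈ WA) (k : ℤ) : x * Sh k = Sh k * x := by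
  have h : WA ≤ Subalgebra.centralizer ℝ (range Sh) := by
    apply WA_le
    · exact Set.isClosed_centralizer _
    · intro l
      rw [Subalgebra.mem_centralizer_iff]
      rintro _ ⟨m, rfl⟩
      rw [Sh_mul, Sh_mul, add_comm]
  have h2 := h hx
  rw [Subalgebra.mem_centralizer_iff] at h2
  exact (h2 _ ⟨k, rfl⟩).symm

lemma WA_comm (x y : E →L[ℝ] E) (hx : x ∈ WA) (hy : y ∈ WA) : x * y = y * x := by
  have h : WA ≤ Subalgebra.centralizer ℝ (WA : Set (E →L[ℝ] E)) := by
    apply WA_le
    · exact Set.isClosed_centralizer _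
    · intro l
      rw [Subalgebra.mem_centralizer_iff]
      intro z hz
      exact WA_comm_Sh z hz l
  have h2 := h hx
  rw [Subalgebra.mem_centralizer_iff] at h2
  exact (h2 y hy).symm

/-- the real Wiener algebra -/
abbrev W : Type := ↥WA

noncomputable instance instW : NormedCommRing W :=
  { (inferInstance : NormedRing W) with
    mul_comm := fun x y => Subtype.ext (WA_comm x.1 y.1 x.2 y.2) }

noncomputable instance instWA : NormedAlgebra ℝ W := inferInstance

instance : CompleteSpace W :=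
  (Subalgebra.isClosed_topologicalClosure _).completeSpace_coe

/-- shifts as elements of `W` (the function `z ↦ z ^ k` on the unit circle) -/
noncomputable def sh (k : ℤ) : W := ⟨Sh k, Sh_mem k⟩

lemma sh_norm (k : ℤ) : ‖sh k‖ ≤ 1 := Sh_norm k

lemma sh_mul (k l : ℤ) : sh k * sh l = sh (k + l) := Subtype.ext (Sh_mul k l)

lemma sh_zero : sh 0 = 1 := Subtype.ext Sh_zero

lemma W_norm_one : ‖(1 : W)‖ ≤ 1 := by
  rw [← sh_zero]; exact sh_norm 0

/-- the unit vector `e_0` of `ℓ¹(ℤ)` -/
noncomputable def e0 : E := lp.single 1 0 (1 : ℝ)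

lemma e0_norm : ‖e0‖ = 1 := by
  rw [e0, lp.norm_single (by norm_num)]; simp

lemma e0_apply (n : ℤ) : e0 n = if n = 0 then 1 else 0 := by
  by_cases h : n = 0
  · subst h; simp [e0]
  · simp [e0, h]

/-- the `n`-th Fourier coefficient of an element of the Wiener algebra, as a linear functional -/
noncomputable def cf (n : ℤ) : W →L[ℝ] ℝ :=
  LinearMap.mkContinuous
    { toFun := fun w => (w.1 e0) n
      map_add' := fun u v => rfl
      map_smul' := fun c u => rfl } 1 (fun w => by
      rw [one_mul]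
      refine (lp.norm_apply_le_norm (by norm_num) (w.1 e0) n).trans ?_
      have := w.1.le_opNorm e0
      rw [e0_norm, mul_one] at this
      exact this)

lemma cf_apply (n : ℤ) (w : W) : cf n w = (w.1 e0) n := rfl

lemma cf_summable (w : W) : Summable (fun n => |cf n w|) := E_summable (w.1 e0)

lemma cf_tsum_le (w : W) : ∑' n, |cf n w| ≤ ‖w‖ := by
  have h1 : ∑' n, |cf n w| = ‖w.1 e0‖ := (E_norm _).symm
  rw [h1]
  have := w.1.le_opNorm e0
  rw [e0_norm, mul_one] at this
  exact this

lemma cf_sh (n k : ℤ) : cf n (sh k) = if n = k then 1 else 0 := by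
  rw [cf_apply]
  show (Sh k e0) n = _
  rw [Sh_apply, e0_apply]
  simp [sub_eq_zero]

lemma cf_one (n : ℤ) : cf n 1 = if n = 0 then 1 else 0 := by
  rw [← sh_zero, cf_sh]

lemma cf_sh_mul (n k : ℤ) (w : W) : cf n (sh k * w) = cf (n - k) w := by
  rw [cf_apply, cf_apply]
  show (Sh k (w.1 e0)) n = _
  rw [Sh_apply]

end Pool.Agent.N463.HW
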