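import Mathlib
import Pool.Agent.N463.HW.Wiener

/-!
# Project HW (MP_11bc5f_an): Hermite eigenfunctions of localization operators with a Hermite window

Definitions and the statements of the pieces.  No proofs here.
-/

set_option autoImplicit false

open MeasureTheory

namespace Pool.Agent.N463.HW

/-! ## The problem -/

/-- The time-frequency shift `π(x, ξ) g (t) = exp(2 π i ξ t) g(t - x)`. -/
noncomputable def tfs (w : ℝ × ℝ) (g : ℝ → ℂ) (t : ℝ) : ℂ :=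
  Complex.exp (2 * Real.pi * Complex.I * w.2 * t) * g (t - w.1)

/-- The short-time Fourier transform `V_g f (w) = ⟨f, π(w) g⟩`. -/
noncomputable def stft (g f : ℝ → ℂ) (w : ℝ × ℝ) : ℂ :=
  ∫ t, f t * (starRingEnd ℂ) (tfs w g t)

/-- `exp(π t²) (d/dt)^n exp(-2 π t²)` -/
noncomputable def hermRaw (n : ℕ) (t : ℝ) : ℝ :=
  Real.exp (Real.pi * t ^ 2) * iteratedDeriv n (fun s : ℝ => Real.exp (-2 * Real.pi * s ^ 2)) t

/-- The Hermite function `h_n` (normalised in `L²`, positive multiple of `hermRaw n`). -/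
noncomputable def herm (n : ℕ) (t : ℝ) : ℂ :=
  ((hermRaw n t / Real.sqrt (∫ s, hermRaw n s ^ 2) : ℝ) : ℂ)

/-- `⟨H^r_Ω h_j, g⟩ = l ⟨h_j, g⟩` for all `g` in `L²`. -/
def IsEig (r j : ℕ) (Ω : Set (ℝ × ℝ)) (l : ℂ) : Prop :=
  ∀ g : ℝ → ℂ, MemLp g 2 →
    ∫ w in Ω, stft (herm r) (herm j) w * (starRingEnd ℂ) (stft (herm r) g w) =
      l * ∫ t, herm j t * (starRingEnd ℂ) (g t)

/-! ## Part A: the solution in the Wiener algebra -/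

/-- `ℓ¹(ℕ)`, the coefficient `x n` belongs to the frequency `n + 2` -/
abbrev X : Type := lp (fun _ : ℕ => ℝ) 1

/-- the value of the element `w` of the Wiener algebra at the point `z` of the unit circle -/
noncomputable def ev (z : ℂ) (w : W) : ℂ := ∑' n : ℤ, (cf n w : ℂ) * z ^ n

/-- `G = ε z + ∑ x_n z^(n+2)` -/
noncomputable def Gp (ε : ℝ) (x : X) : W := ε • sh 1 + ∑' n : ℕ, x n • sh ((n : ℤ) + 2)

/-- the conjugate of `G` -/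
noncomputable def Gm (ε : ℝ) (x : X) : W := ε • sh (-1) + ∑' n : ℕ, x n • sh (-((n : ℤ) + 2))

/-- `v = ε (z + 1/z) + ∑ (x_n/(n+2)) (z^(n+2) + z^(-(n+2)))` -/
noncomputable def vv (ε : ℝ) (x : X) : W :=
  ε • (sh 1 + sh (-1)) +
    ∑' n : ℕ, (x n / ((n : ℝ) + 2)) • (sh ((n : ℤ) + 2) + sh (-((n : ℤ) + 2)))

/-- `N = exp(-P (e^v - 1)) (1 + G + P e^v (1 + conj G))` -/
noncomputable def NN (P ε : ℝ) (x : X) : W :=
  NormedSpace.exp (-(P • (NormedSpace.exp (vv ε x) - 1))) *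
    (1 + Gp ε x + (P • NormedSpace.exp (vv ε x)) * (1 + Gm ε x))

/-- EV: evaluation is a homomorphism and commutes with `exp`. -/
def S_EV : Prop :=
  ∀ z : ℂ, ‖z‖ = 1 →
    (∀ u w : W, ev z (u + w) = ev z u + ev z w) ∧
    (∀ (c : ℝ) (w : W), ev z (c • w) = c * ev z w) ∧
    (∀ u w : W, ev z (u * w) = ev z u * ev z w) ∧
    ev z 1 = 1 ∧ (∀ k : ℤ, ev z (sh k) = z ^ k) ∧ (∀ w : W, ‖ev z w‖ ≤ ‖w‖) ∧
    (∀ w : W, ev z (NormedSpace.exp w) = Complex.exp (ev z w))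

/-- SMO: `NN` is smooth, with the obvious derivative at the points `(P, 0, 0)`. -/
def S_SMO : Prop :=
  ContDiff ℝ 2 (fun p : ℝ × ℝ × X => NN p.1 p.2.1 p.2.2) ∧
  (∀ P : ℝ, NN P 0 0 = (1 + P) • (1 : W)) ∧
  ∀ P : ℝ, ∃ L : ℝ × X →L[ℝ] W, HasFDerivAt (fun p : ℝ × X => NN P p.1 p.2) L 0 ∧
    ∀ (e : ℝ) (x : X), L (e, x) = Gp e x + P • Gm e x - P ^ 2 • vv e x

/-- CFL: the negative Fourier coefficients of the linear part. -/
def S_CFL : Prop :=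
  ∀ (P e : ℝ) (x : X),
    cf (-1) (Gp e x + P • Gm e x - P ^ 2 • vv e x) = P * (1 - P) * e ∧
    ∀ n : ℕ, cf (-((n : ℤ) + 2)) (Gp e x + P • Gm e x - P ^ 2 • vv e x) =
      P * (1 - P / ((n : ℝ) + 2)) * x n

/-- IFT: the solution (implicit function theorem and intermediate value theorem). -/
def S_IFT : Prop :=
  ∀ δ : ℝ, 0 < δ → ∃ (P ε : ℝ) (x : X), 0 < ε ∧ ε < δ ∧ |P - 1| < δ ∧ ‖x‖ < δ ∧
    ∀ k : ℕ, 1 ≤ k → cf (-(k : ℤ)) (NN P ε x) = 0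

/-- `g(τ) = ∑ (x_k / k) e^{i k τ}` -/
noncomputable def gs (x : ℕ → ℝ) (τ : ℝ) : ℂ :=
  ∑' k : ℕ, ((x k / k : ℝ) : ℂ) * Complex.exp (k * τ * Complex.I)

/-- `G(τ) = ∑ x_k e^{i k τ}` -/
noncomputable def Gs (x : ℕ → ℝ) (τ : ℝ) : ℂ :=
  ∑' k : ℕ, (x k : ℂ) * Complex.exp (k * τ * Complex.I)

/-- `p(τ) = P e^{2 Re g(τ)}` -/
noncomputable def pp (P : ℝ) (x : ℕ → ℝ) (τ : ℝ) : ℝ := P * Real.exp (2 * (gs x τ).re)

/-- `N(τ) = ∑ n_k e^{i k τ}` -/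
noncomputable def Ns (n : ℕ → ℂ) (τ : ℝ) : ℂ := ∑' k : ℕ, n k * Complex.exp (k * τ * Complex.I)

/-- A solution of the free boundary problem in terms of the conformal map. -/
structure Sol (x : ℕ → ℝ) (P : ℝ) (n : ℕ → ℂ) : Prop where
  P_pos : 0 < P
  x_zero : x 0 = 0
  x_one : x 1 ≠ 0
  x_sum : Summable fun k => |x k|
  x_small : ∑' k, |x k| ≤ 1 / 2
  n_sum : Summable fun k => ‖n k‖
  eqn : ∀ τ : ℝ, Complex.exp (-(pp P x τ : ℂ)) *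
    (1 + Gs x τ + (pp P x τ : ℂ) * (1 + (starRingEnd ℂ) (Gs x τ))) = Ns n τ

/-- SOL: there is a solution. -/
def S_SOL : Prop := ∃ x P n, Sol x P n

/-! ## Part B: the boundary curve -/

/-- `Γ_m(r) = ∫_0^r s^(m+1) (m - π s²) exp(-π s²) ds` -/
noncomputable def Gam (m : ℕ) (r : ℝ) : ℝ :=
  ∫ s in (0 : ℝ)..r, s ^ (m + 1) * (m - Real.pi * s ^ 2) * Real.exp (-Real.pi * s ^ 2)

/-- the radius `ρ(τ) = √(P/π) e^{Re g(τ)}` -/
noncomputable def rho (P : ℝ) (x : ℕ → ℝ) (τ : ℝ) : ℝ :=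
  Real.sqrt (P / Real.pi) * Real.exp (gs x τ).re

/-- the angle `θ(τ) = τ + Im g(τ)` -/
noncomputable def tht (x : ℕ → ℝ) (τ : ℝ) : ℝ := τ + (gs x τ).im

/-- DER: the derivative of `g`. -/
def S_DER : Prop :=
  ∀ x : ℕ → ℝ, x 0 = 0 → (Summable fun k => |x k|) →
    (∀ τ, HasDerivAt (gs x) (Complex.I * Gs x τ) τ) ∧ Continuous (Gs x) ∧
    (∀ τ, gs x (τ + 2 * Real.pi) = gs x τ) ∧ (∀ τ, Gs x (τ + 2 * Real.pi) = Gs x τ) ∧
    ∀ τ, ‖Gs x τ‖ ≤ ∑' k, |x k|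

/-- ORT: orthogonality (Cauchy's theorem). -/
def S_ORT : Prop :=
  ∀ (x : ℕ → ℝ) (n : ℕ → ℂ), x 0 = 0 → (Summable fun k => |x k|) → (Summable fun k => ‖n k‖) →
    ∀ m : ℕ, 1 ≤ m →
      ∫ τ in (0 : ℝ)..2 * Real.pi, Complex.exp (m * (τ * Complex.I + gs x τ)) * Ns n τ = 0

/-- IBP: two integrations by parts. -/
def S_IBP : Prop :=
  ∀ (x : ℕ → ℝ) (P : ℝ) (n : ℕ → ℂ), Sol x P n → ∀ m : ℕ, 1 ≤ m →
    ∫ τ in (0 : ℝ)..2 * Real.pi, Complex.exp (m * (tht x τ : ℂ) * Complex.I) *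
      (Gam m (rho P x τ) : ℂ) * ((1 + (Gs x τ).re : ℝ) : ℂ) = 0

/-- NC: `Re g` is not constant. -/
def S_NC : Prop :=
  ∀ x : ℕ → ℝ, x 0 = 0 → (Summable fun k => |x k|) → x 1 ≠ 0 →
    ∃ τ τ' : ℝ, (gs x τ).re ≠ (gs x τ').re

/-- A radius function with vanishing moments. -/
structure Curve (r : ℝ → ℝ) : Prop where
  cont : Continuous r
  per : ∀ θ, r (θ + 2 * Real.pi) = r θ
  pos : ∀ θ, 0 < r θ
  nonconst : ∃ θ θ', r θ ≠ r θ'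
  mom : ∀ m : ℕ, 1 ≤ m →
    ∫ θ in (-Real.pi)..Real.pi, Complex.exp (m * (θ : ℂ) * Complex.I) * (Gam m (r θ) : ℂ) = 0

/-- INV: the radius as a function of the angle. -/
def S_INV : Prop :=
  ∀ (x : ℕ → ℝ) (P : ℝ) (n : ℕ → ℂ), Sol x P n →
    (∀ m : ℕ, 1 ≤ m →
      ∫ τ in (0 : ℝ)..2 * Real.pi, Complex.exp (m * (tht x τ : ℂ) * Complex.I) *
        (Gam m (rho P x τ) : ℂ) * ((1 + (Gs x τ).re : ℝ) : ℂ) = 0) →
    ∃ r, Curve r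

/-! ## Part C: the domain -/

/-- the point `x + i ξ` -/
noncomputable def zz (w : ℝ × ℝ) : ℂ := (w.1 : ℂ) + (w.2 : ℂ) * Complex.I

/-- the domain `{ |z| < r(arg z) }` -/
def dom (r : ℝ → ℝ) : Set (ℝ × ℝ) := {w | ‖zz w‖ < r (Complex.arg (zz w))}

/-- TOP: the domain is open, simply connected, bounded, of positive measure, and not a centred
disc. -/
def S_TOP : Prop :=
  ∀ r : ℝ → ℝ, Continuous r → (∀ θ, r (θ + 2 * Real.pi) = r θ) → (∀ θ, 0 < r θ) →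
    IsOpen (dom r) ∧ SimplyConnectedSpace (dom r) ∧ (∃ M : ℝ, ∀ w ∈ dom r, ‖zz w‖ ≤ M) ∧
    volume (dom r) ≠ 0 ∧ volume (dom r) ≠ ⊤ ∧
    ((∃ θ θ', r θ ≠ r θ') → ∀ R : ℝ, dom r ≠ {w | w.1 ^ 2 + w.2 ^ 2 < R ^ 2})

/-- The moment condition. -/
def Mom (Ω : Set (ℝ × ℝ)) : Prop :=
  ∀ m : ℕ, 1 ≤ m →
    ∫ w in Ω, zz w ^ m * ((m : ℂ) - Real.pi * (‖zz w‖ ^ 2 : ℝ)) *
      Complex.exp (-Real.pi * (‖zz w‖ ^ 2 : ℝ)) = 0

/-- POL: the moments in polar coordinates. -/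
def S_POL : Prop := ∀ r : ℝ → ℝ, Curve r → Mom (dom r)

/-! ## Part D: the short-time Fourier transform -/

/-- HER: the first two Hermite functions. -/
def S_HER : Prop :=
  ∃ c₀ c₁ : ℝ, 0 < c₀ ∧ 0 < c₁ ∧
    (∀ t : ℝ, herm 0 t = c₀ * Complex.exp (-Real.pi * t ^ 2)) ∧
    (∀ t : ℝ, herm 1 t = -c₁ * t * Complex.exp (-Real.pi * t ^ 2))

/-- the Bargmann transform (up to conjugation and a constant) -/
noncomputable def bst (g : ℝ → ℂ) (z : ℂ) : ℂ :=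
  Complex.exp (-Real.pi * z ^ 2 / 2) *
    ∫ t : ℝ, (starRingEnd ℂ) (g t) * Complex.exp (-Real.pi * t ^ 2 + 2 * Real.pi * t * z)

/-- ENT: it is entire, and the derivative can be computed under the integral. -/
def S_ENT : Prop :=
  ∀ g : ℝ → ℂ, MemLp g 2 →
    (∀ z : ℂ, Integrable (fun t : ℝ =>
      (starRingEnd ℂ) (g t) * Complex.exp (-Real.pi * t ^ 2 + 2 * Real.pi * t * z))) ∧
    (∀ z : ℂ, Integrable (fun t : ℝ => (t : ℂ) *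
      ((starRingEnd ℂ) (g t) * Complex.exp (-Real.pi * t ^ 2 + 2 * Real.pi * t * z)))) ∧
    ∀ z : ℂ, HasDerivAt (bst g)
      (-Real.pi * z * bst g z + Complex.exp (-Real.pi * z ^ 2 / 2) *
        ∫ t : ℝ, (2 * Real.pi * t : ℂ) * ((starRingEnd ℂ) (g t) *
          Complex.exp (-Real.pi * t ^ 2 + 2 * Real.pi * t * z))) z

/-- VG: the conjugate of the short-time Fourier transform with window `h_1`. -/
def S_VG : Prop :=
  ∀ c₁ : ℝ, (∀ t : ℝ, herm 1 t = -c₁ * t * Complex.exp (-Real.pi * t ^ 2)) →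
    ∀ g : ℝ → ℂ, MemLp g 2 → ∀ w : ℝ × ℝ,
      (starRingEnd ℂ) (stft (herm 1) g w) =
        -(c₁ / (2 * Real.pi)) * Complex.exp (-Real.pi * w.1 ^ 2 + Real.pi * zz w ^ 2 / 2) *
          (deriv (bst g) (zz w) - Real.pi * (starRingEnd ℂ) (zz w) * bst g (zz w))

/-- V0: the Bargmann transform of the Gaussian is constant. -/
def S_V0 : Prop :=
  ∀ c₀ : ℝ, (∀ t : ℝ, herm 0 t = c₀ * Complex.exp (-Real.pi * t ^ 2)) →
    ∀ z : ℂ, bst (herm 0) z = (c₀ / Real.sqrt 2 : ℝ)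

/-- SER: the series step. -/
def S_SER : Prop :=
  ∀ Ω : Set (ℝ × ℝ), MeasurableSet Ω → (∃ M : ℝ, ∀ w ∈ Ω, ‖zz w‖ ≤ M) → Mom Ω →
    ∀ b : ℂ → ℂ, Differentiable ℂ b →
      ∫ w in Ω, (zz w * deriv b (zz w) - Real.pi * (‖zz w‖ ^ 2 : ℝ) * b (zz w)) *
          Complex.exp (-Real.pi * (‖zz w‖ ^ 2 : ℝ)) =
        -Real.pi * b 0 * ((∫ w in Ω, ‖zz w‖ ^ 2 * Real.exp (-Real.pi * ‖zz w‖ ^ 2) : ℝ) : ℂ)

/-- EIG: the moment condition implies that `h_0` is an eigenfunction. -/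
def S_EIG : Prop :=
  ∀ Ω : Set (ℝ × ℝ), MeasurableSet Ω → (∃ M : ℝ, ∀ w ∈ Ω, ‖zz w‖ ≤ M) → Mom Ω →
    ∃ l : ℂ, IsEig 1 0 Ω l

/-- OP: the localization operator exists (for every window `h_r` and every set of finite
measure). -/
def S_OP : Prop :=
  ∀ (r : ℕ) (Ω : Set (ℝ × ℝ)), MeasurableSet Ω → volume Ω ≠ ⊤ →
    ∃ T : Lp ℂ 2 (volume : Measure ℝ) →L[ℂ] Lp ℂ 2 (volume : Measure ℝ),
      ∀ f g : Lp ℂ 2 (volume : Measure ℝ),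
        inner ℂ g (T f) =
          ∫ w in Ω, stft (herm r) f w * (starRingEnd ℂ) (stft (herm r) g w)

/-- HL: the Hermite functions are in `L²`. -/
def S_HL : Prop := ∀ n : ℕ, MemLp (herm n) 2

end Pool.Agent.N463.HW
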